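import Pool.Agent.X194.MinSet

/-! A skew product on the two-torus: every orbit of its square is dense. -/

namespace Pool.Agent.X194.RT

open Topology Filter Set

/-- the circle -/
abbrev T : Type := UnitAddCircle

/-- The group of the affine maps `(x, y) ↦ (x + s, y + n x + t)` of the two-torus. -/
@[ext] structure G where
  /-- slope -/
  n : ℤ
  /-- first translation -/
  s : T
  /-- second translation -/
  t : T

instance : Mul G := ⟨fun g h => ⟨g.n + h.n, g.s + h.s, g.t + h.t + g.n • h.s⟩⟩
instance : One G := ⟨⟨0, 0, 0⟩⟩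
instance : Inv G := ⟨fun g => ⟨-g.n, -g.s, -g.t + g.n • g.s⟩⟩

theorem mul_n (g h : G) : (g * h).n = g.n + h.n := rfl
theorem mul_s (g h : G) : (g * h).s = g.s + h.s := rfl
theorem mul_t (g h : G) : (g * h).t = g.t + h.t + g.n • h.s := rfl
theorem one_n : (1 : G).n = 0 := rfl
theorem one_s : (1 : G).s = 0 := rfl
theorem one_t : (1 : G).t = 0 := rfl
theorem inv_n (g : G) : (g⁻¹).n = -g.n := rfl
theorem inv_s (g : G) : (g⁻¹).s = -g.s := rfl
theorem inv_t (g : G) : (g⁻¹).t = -g.t + g.n • g.s := rfl

instance : Group G := Group.ofLeftAxioms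
  (by
    intro a b c
    refine G.ext ?_ ?_ ?_
    · simp only [mul_n]; ring
    · simp only [mul_s]; abel
    · simp only [mul_t, mul_s, mul_n, add_smul, smul_add]; abel)
  (by
    intro a
    refine G.ext ?_ ?_ ?_
    · simp only [mul_n, one_n]; ring
    · simp only [mul_s, one_s]; abel
    · simp only [mul_t, one_t, one_n, zero_smul]; abel)
  (by
    intro a
    refine G.ext ?_ ?_ ?_
    · simp only [mul_n, one_n, inv_n]; ring
    · simp only [mul_s, one_s, inv_s]; abel
    · simp only [mul_t, one_t, inv_t, inv_n, neg_smul]; abel)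

/-- the action on the two-torus -/
def act (g : G) (p : T × T) : T × T := (p.1 + g.s, p.2 + g.n • p.1 + g.t)

theorem act_mul (g h : G) (p : T × T) : act (g * h) p = act g (act h p) := by
  refine Prod.ext ?_ ?_
  · simp only [act, mul_s]; abel
  · simp only [act, mul_n, mul_t, add_smul, smul_add]; abel

theorem act_one (p : T × T) : act 1 p = p := by
  refine Prod.ext ?_ ?_
  · simp only [act, one_s]; abel
  · simp only [act, one_n, one_t, zero_smul]; abel

theorem act_cont (g : G) : Continuous (act g) := by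
  unfold act
  refine Continuous.prodMk ?_ ?_
  · exact continuous_fst.add continuous_const
  · exact (continuous_snd.add (continuous_fst.zsmul g.n)).add continuous_const

/-- an irrational rotation number -/
noncomputable def al : T := ((Real.sqrt 2 : ℝ) : T)

/-- the translating element -/
noncomputable def tau : G := ⟨1, al, 0⟩

theorem tau_pow (k : ℤ) : (tau ^ k).n = k ∧ (tau ^ k).s = k • al := by
  induction k using Int.induction_on with
  | zero => simp [one_n, one_s]
  | succ i ih =>
    rw [zpow_add_one, mul_n, mul_s, ih.1, ih.2, add_smul, one_smul]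
    exact ⟨rfl, rfl⟩
  | pred i ih =>
    rw [zpow_sub_one, mul_n, mul_s, ih.1, ih.2, sub_smul, one_smul, inv_n, inv_s]
    refine ⟨rfl, ?_⟩
    rw [sub_eq_add_neg]; rfl

theorem two_al : addOrderOf ((2 : ℤ) • al) = 0 := by
  rw [← AddCircle.denseRange_zsmul_iff]
  have : (2 : ℤ) • al = ((2 * Real.sqrt 2 : ℝ) : T) := by
    rw [al, ← AddCircle.coe_zsmul]
    congr 1
    simp
  rw [this]
  apply AddCircle.denseRange_zsmul_coe_iff.2
  rw [div_one]
  have := irrational_sqrt_two.ratCast_mul (q := 2) (by norm_num)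
  simpa using this

theorem mul_al_ne (k : ℤ) (hk : k ≠ 0) : k • ((2 : ℤ) • al) ≠ 0 := by
  intro h
  apply hk
  have h1 := two_al
  rw [addOrderOf_eq_zero_iff] at h1
  by_contra hk0
  apply h1
  exact isOfFinAddOrder_iff_zsmul_eq_zero.2 ⟨k, hk0, h⟩

theorem dense_two : DenseRange (fun k : ℤ => k • ((2 : ℤ) • al)) :=
  AddCircle.denseRange_zsmul_iff.2 two_al

theorem norm_mk_le (x : ℝ) : ‖(x : T)‖ ≤ |x| := by
  rw [UnitAddCircle.norm_eq]
  simpa using round_le x 0

theorem exists_rep (d : T) : ∃ x : ℝ, (x : T) = d ∧ |x| = ‖d‖ := by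
  obtain ⟨y, rfl⟩ := QuotientAddGroup.mk_surjective d
  refine ⟨y - round y, ?_, ?_⟩
  · have h1 : ((y - round y : ℝ) : T) = (y : T) - ((round y : ℝ) : T) := AddCircle.coe_sub _ _ _
    rw [h1]
    have h2 : ((round y : ℝ) : T) = 0 := by
      rw [AddCircle.coe_eq_zero_iff]
      exact ⟨round y, by simp⟩
    rw [h2, sub_zero]
  · exact (UnitAddCircle.norm_eq (x := y)).symm

/-- bounded gaps -/
theorem syn (ε : ℝ) (hε : 0 < ε) : ∃ K : ℕ, ∀ θ : T, ∃ k : ℤ, |k| ≤ K ∧
    ‖θ + k • ((2 : ℤ) • al)‖ < ε := by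
  have hcov : (univ : Set T) ⊆ ⋃ k : ℤ, {θ : T | ‖θ + k • ((2 : ℤ) • al)‖ < ε} := by
    intro θ _
    obtain ⟨k, hk⟩ := dense_two.exists_dist_lt (-θ) hε
    refine mem_iUnion.2 ⟨k, ?_⟩
    rw [dist_eq_norm] at hk
    have : -θ - k • ((2 : ℤ) • al) = -(θ + k • ((2 : ℤ) • al)) := by abel
    rw [this, norm_neg] at hk
    exact hk
  obtain ⟨F, hF⟩ := isCompact_univ.elim_finite_subcover _ (fun k : ℤ => by
    have : Continuous (fun θ : T => ‖θ + k • ((2 : ℤ) • al)‖) := by fun_prop
    exact isOpen_lt this continuous_const) hcov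
  refine ⟨F.sup Int.natAbs, fun θ => ?_⟩
  obtain ⟨k, hk⟩ := mem_iUnion.1 (hF (mem_univ θ))
  obtain ⟨hkF, hk⟩ := mem_iUnion.1 hk
  refine ⟨k, ?_, hk⟩
  rw [Int.abs_eq_natAbs]
  exact_mod_cast Finset.le_sup (f := Int.natAbs) hkF

theorem choose_n (ε : ℝ) (hε : 0 < ε) (s : T) : ∃ η > 0, ∀ d : T, d ≠ 0 → ‖d‖ < η →
    ∃ k : ℤ, ‖k • ((2 : ℤ) • al)‖ < ε ∧ ‖(2 * k) • d - s‖ < ε := by
  obtain ⟨K, hK⟩ := syn ε hε
  refine ⟨ε / (2 * K + 3), by positivity, fun d hd hdn => ?_⟩
  obtain ⟨x, rfl, hx⟩ := exists_rep d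
  obtain ⟨σ, rfl⟩ := QuotientAddGroup.mk_surjective s
  have hx0 : x ≠ 0 := by
    rintro rfl
    exact hd (by simp)
  set N : ℤ := ⌊σ / (2 * x)⌋ with hN
  obtain ⟨k, hk, hk2⟩ := hK (N • ((2 : ℤ) • al))
  refine ⟨N + k, ?_, ?_⟩
  · rw [add_smul]; exact hk2
  · have h1 : ((2 * (N + k)) • (x : T) - (σ : T)) = (((2 * (N + k) : ℤ) * x - σ : ℝ) : T) := by
      rw [AddCircle.coe_sub, ← zsmul_eq_mul, AddCircle.coe_zsmul]
    have h2 : ‖((2 * (N + k)) • (x : T) - (σ : T))‖ ≤ |((2 * (N + k) : ℤ) * x - σ : ℝ)| := by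
      rw [h1]; exact norm_mk_le _
    refine lt_of_le_of_lt h2 ?_
    have h3 := Int.floor_le (σ / (2 * x))
    have h4 := Int.lt_floor_add_one (σ / (2 * x))
    rw [← hN] at h3 h4
    have h5 : |σ - N * (2 * x)| ≤ 2 * |x| := by
      have h6 : σ - N * (2 * x) = (σ / (2 * x) - N) * (2 * x) := by field_simp
      rw [h6, abs_mul]
      have h7 : |σ / (2 * x) - N| ≤ 1 := by rw [abs_le]; constructor <;> linarith
      have h8 : |2 * x| = 2 * |x| := by rw [abs_mul]; norm_num
      rw [h8]
      have h9 : 0 ≤ |x| := abs_nonneg x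
      nlinarith
    have h10 : ((2 * (N + k) : ℤ) * x - σ : ℝ) = -(σ - N * (2 * x)) + (2 * k) * x := by
      push_cast; ring
    rw [h10]
    have h11 : |(-(σ - N * (2 * x)) + (2 * k) * x : ℝ)| ≤ 2 * |x| + 2 * K * |x| := by
      refine (abs_add_le _ _).trans ?_
      rw [abs_neg, abs_mul, abs_mul]
      have h12 : |(k : ℝ)| ≤ K := by exact_mod_cast hk
      have h13 : |(2 : ℝ)| = 2 := by norm_num
      rw [h13]
      have h9 : 0 ≤ |x| := abs_nonneg x
      nlinarith
    refine lt_of_le_of_lt h11 ?_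
    have h14 : (2 * (K : ℝ) + 3) * |x| < ε := by
      rw [hx]
      have := (lt_div_iff₀ (by positivity : (0 : ℝ) < 2 * K + 3)).1 hdn
      linarith
    have h9 : 0 ≤ |x| := abs_nonneg x
    nlinarith

/-- vertical translation -/
def R (u : T) (p : T × T) : T × T := (p.1, p.2 + u)

theorem R_cont (u : T) : Continuous (R u) := by
  unfold R; fun_prop

theorem act_R (g : G) (u : T) (p : T × T) : act g (R u p) = R u (act g p) := by
  refine Prod.ext rfl ?_
  simp only [act, R]; abel

/-- the square of the skew product -/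
noncomputable def S : T × T → T × T := act (tau ^ (2 : ℤ))

theorem S_iter (k : ℕ) (p : T × T) : S^[k] p = act (tau ^ (2 * k : ℤ)) p := by
  induction k with
  | zero => simp [act_one]
  | succ k ih =>
    rw [Function.iterate_succ_apply', ih, S, ← act_mul, ← zpow_add]
    congr 2
    push_cast; ring

theorem act_tau (k : ℤ) (p : T × T) : act (tau ^ k) p =
    (p.1 + k • al, p.2 + k • p.1 + (tau ^ k).t) := by
  unfold act
  rw [(tau_pow k).1, (tau_pow k).2]

/-- Every closed nonempty subset of the two-torus, invariant under the square of the skew product,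
is the whole two-torus. -/
theorem dense_orbit (C : Set (T × T)) (hC : IsClosed C) (hne : C.Nonempty) (hinv : MapsTo S C C) :
    C = univ := by
  obtain ⟨W, hWc, hWne, hWi, hWC, hWmin⟩ := MinSet.exists_minimal S C hC hne hinv
  suffices h : W = univ by
    rw [h] at hWC
    exact univ_subset_iff.1 hWC
  have hScont : Continuous S := act_cont _
  -- two-sided invariance
  have hSW : S '' W = W := by
    refine hWmin _ (hWc.isCompact.image hScont).isClosed (hWne.image _) ?_ ?_
    · rintro _ ⟨x, hx, rfl⟩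
      exact ⟨S x, hWi hx, rfl⟩
    · rintro _ ⟨x, hx, rfl⟩
      exact hWi hx
  have hinvk : ∀ k : ℤ, ∀ p ∈ W, act (tau ^ (2 * k)) p ∈ W := by
    intro k
    induction k using Int.induction_on with
    | zero => intro p hp; simpa [act_one] using hp
    | succ i ih =>
      intro p hp
      have h1 : (2 * ((i : ℤ) + 1)) = 2 + 2 * i := by ring
      rw [h1, zpow_add, act_mul]
      exact hWi (ih p hp)
    | pred i ih =>
      intro p hp
      rw [← hSW] at hp
      obtain ⟨q, hq, rfl⟩ := hp
      have h1 : act (tau ^ (2 * (-(i : ℤ) - 1))) (S q) = act (tau ^ (2 * -(i : ℤ))) q := by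
        rw [S, ← act_mul, ← zpow_add]
        congr 2
        ring
      rw [h1]
      exact ih q hq
  -- recurrence
  have hrec : ∀ p ∈ W, ∀ O : Set (T × T), IsOpen O → p ∈ O →
      ∃ m : ℤ, m ≠ 0 ∧ act (tau ^ (2 * m)) p ∈ O := by
    intro p hp O hO hpO
    obtain ⟨N, hN⟩ := MinSet.exists_bound hScont hWc hWi hWmin hO ⟨p, hp, hpO⟩
    obtain ⟨j, -, hj⟩ := hN (S p) (hWi hp)
    refine ⟨(j + 1 : ℕ), by positivity, ?_⟩
    rw [← S_iter, Function.iterate_succ_apply]
    exact hj
  -- vertical translations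
  have hRinv : ∀ u : T, ∀ p ∈ W, R u p ∈ W → ∀ q ∈ W, R u q ∈ W := by
    intro u p hp hup
    have h1 : {q | q ∈ W ∧ R u q ∈ W} = W := by
      refine hWmin _ (hWc.inter (hWc.preimage (R_cont u))) ⟨p, hp, hup⟩ ?_ (fun q hq => hq.1)
      rintro q ⟨hq1, hq2⟩
      refine ⟨hWi hq1, ?_⟩
      have : R u (S q) = S (R u q) := (act_R _ _ _).symm
      rw [this]
      exact hWi hq2
    intro q hq
    rw [← h1] at hq
    exact hq.2
  obtain ⟨p, hp⟩ := hWne
  have hmain : ∀ s : T, ∀ q ∈ W, R s q ∈ W := by
    intro s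
    have hFc : Continuous (fun u : T => Metric.infDist (R u p) W + Metric.infDist (R (u + s) p) W) := by
      refine Continuous.add ?_ ?_
      · refine (Metric.continuous_infDist_pt W).comp ?_
        unfold R; fun_prop
      · refine (Metric.continuous_infDist_pt W).comp ?_
        unfold R; fun_prop
    obtain ⟨u, -, hu⟩ := isCompact_univ.exists_isMinOn univ_nonempty hFc.continuousOn
    have hu0 : Metric.infDist (R u p) W + Metric.infDist (R (u + s) p) W = 0 := by
      by_contra hpos
      have hpos' : 0 < Metric.infDist (R u p) W + Metric.infDist (R (u + s) p) W :=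
        lt_of_le_of_ne (add_nonneg Metric.infDist_nonneg Metric.infDist_nonneg) (Ne.symm hpos)
      set c := Metric.infDist (R u p) W + Metric.infDist (R (u + s) p) W with hc
      have hε : 0 < c / 8 := by positivity
      obtain ⟨η, hη, hch⟩ := choose_n (c / 8) hε s
      obtain ⟨m, hm0, hmO⟩ := hrec p hp (Metric.ball p (min η (c / 8))) Metric.isOpen_ball
        (Metric.mem_ball_self (lt_min hη hε))
      rw [Metric.mem_ball, act_tau, Prod.dist_eq, max_lt_iff] at hmO
      obtain ⟨hm1, hm2⟩ := hmO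
      have hd : ‖(2 * m) • al‖ < min η (c / 8) := by
        have : dist (p.1 + (2 * m) • al) p.1 = ‖(2 * m) • al‖ := by
          rw [dist_eq_norm]; congr 1; abel
        rw [← this]; exact hm1
      have hd0 : (2 * m) • al ≠ 0 := by
        have := mul_al_ne m hm0
        rwa [smul_smul, mul_comm] at this
      obtain ⟨k, hk1, hk2⟩ := hch ((2 * m) • al) hd0 (lt_of_lt_of_le hd (min_le_left _ _))
      rw [smul_smul, mul_comm] at hk1
      -- the two points of `W`
      have hA : act (tau ^ (2 * k)) p ∈ W := hinvk k p hp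
      have hB : act (tau ^ (2 * k)) (act (tau ^ (2 * m)) p) ∈ W := hinvk k _ (hinvk m p hp)
      set v : T := (2 * k) • p.1 + (tau ^ (2 * k)).t with hv
      have hA1 : Metric.infDist (R v p) W ≤ c / 8 := by
        refine (Metric.infDist_le_dist_of_mem hA).trans ?_
        rw [act_tau, Prod.dist_eq]
        refine max_le ?_ ?_
        · have : dist p.1 (p.1 + (2 * k) • al) = ‖(2 * k) • al‖ := by
            rw [dist_comm, dist_eq_norm]; congr 1; abel
          show dist p.1 (p.1 + (2 * k) • al) ≤ c / 8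
          rw [this]; exact hk1.le
        · show dist (p.2 + v) (p.2 + (2 * k) • p.1 + (tau ^ (2 * k)).t) ≤ c / 8
          rw [hv, ← add_assoc, dist_self]
          exact hε.le
      have hB1 : Metric.infDist (R (v + s) p) W ≤ c / 4 := by
        refine (Metric.infDist_le_dist_of_mem hB).trans ?_
        rw [act_tau (2 * k), act_tau (2 * m), Prod.dist_eq]
        refine max_le ?_ ?_
        · show dist p.1 (p.1 + (2 * m) • al + (2 * k) • al) ≤ c / 4
          have : dist p.1 (p.1 + (2 * m) • al + (2 * k) • al)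
              = ‖(2 * m) • al + (2 * k) • al‖ := by
            rw [dist_comm, dist_eq_norm]; congr 1; abel
          rw [this]
          refine (norm_add_le _ _).trans ?_
          have := lt_of_lt_of_le hd (min_le_right _ _)
          linarith
        · show dist (p.2 + (v + s)) (p.2 + (2 * m) • p.1 + (tau ^ (2 * m)).t
            + (2 * k) • (p.1 + (2 * m) • al) + (tau ^ (2 * k)).t) ≤ c / 4
          set e : T := (p.2 + (2 * m) • p.1 + (tau ^ (2 * m)).t) - p.2 with he
          have he1 : ‖e‖ < c / 8 := by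
            have h1 : ‖e‖ = dist (p.2 + (2 * m) • p.1 + (tau ^ (2 * m)).t) p.2 := by
              rw [dist_eq_norm]
            rw [h1]
            exact lt_of_lt_of_le hm2 (min_le_right _ _)
          have h2 : p.2 + (2 * m) • p.1 + (tau ^ (2 * m)).t = p.2 + e := by rw [he]; abel
          rw [h2, dist_comm, dist_eq_norm]
          have h3 : p.2 + e + (2 * k) • (p.1 + (2 * m) • al) + (tau ^ (2 * k)).t - (p.2 + (v + s))
              = e + ((2 * k) • ((2 * m) • al) - s) := by
            rw [hv, smul_add]; abel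
          rw [h3]
          refine (norm_add_le _ _).trans ?_
          linarith
      have hle := hu (mem_univ v)
      have hle' : c ≤ Metric.infDist (R v p) W + Metric.infDist (R (v + s) p) W := hle
      linarith
    have h1 : Metric.infDist (R u p) W = 0 := by
      have := Metric.infDist_nonneg (x := R u p) (s := W)
      have := Metric.infDist_nonneg (x := R (u + s) p) (s := W)
      linarith
    have h2 : Metric.infDist (R (u + s) p) W = 0 := by
      have := Metric.infDist_nonneg (x := R u p) (s := W)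
      have := Metric.infDist_nonneg (x := R (u + s) p) (s := W)
      linarith
    have h1' : R u p ∈ W := (hWc.mem_iff_infDist_zero ⟨p, hp⟩).2 h1
    have h2' : R (u + s) p ∈ W := (hWc.mem_iff_infDist_zero ⟨p, hp⟩).2 h2
    refine hRinv s (R u p) h1' ?_
    have : R s (R u p) = R (u + s) p := by
      refine Prod.ext rfl ?_
      simp only [R]; abel
    rw [this]; exact h2'
  -- conclusion
  apply eq_univ_of_forall
  rintro ⟨x, y⟩
  have hxall : ∀ k : ℤ, ((p.1 + k • ((2 : ℤ) • al), y) : T × T) ∈ W := by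
    intro k
    have h1 := hmain (y - (act (tau ^ (2 * k)) p).2) _ (hinvk k p hp)
    have h2 : R (y - (act (tau ^ (2 * k)) p).2) (act (tau ^ (2 * k)) p)
        = (p.1 + k • ((2 : ℤ) • al), y) := by
      refine Prod.ext ?_ ?_
      · show (act (tau ^ (2 * k)) p).1 = _
        rw [act_tau, smul_smul, mul_comm]
      · show (act (tau ^ (2 * k)) p).2 + (y - (act (tau ^ (2 * k)) p).2) = y
        abel
    rwa [h2] at h1
  have hcl : IsClosed {z : T | ((p.1 + z, y) : T × T) ∈ W} := by
    refine hWc.preimage ?_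
    fun_prop
  have hall : {z : T | ((p.1 + z, y) : T × T) ∈ W} = univ := by
    have h1 : closure (range fun k : ℤ => k • ((2 : ℤ) • al)) ⊆ {z : T | ((p.1 + z, y) : T × T) ∈ W} := by
      apply hcl.closure_subset_iff.2
      rintro _ ⟨k, rfl⟩
      exact hxall k
    rw [dense_two.closure_range] at h1
    exact univ_subset_iff.1 h1
  have h2 : x - p.1 ∈ {z : T | ((p.1 + z, y) : T × T) ∈ W} := by rw [hall]; trivial
  have h3 : ((p.1 + (x - p.1), y) : T × T) ∈ W := h2
  rwa [add_sub_cancel] at h3

end Pool.Agent.X194.RT
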