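import Pool.Agent.X194.RT.Dyn

/-! The group, its subgroups and the homogeneous spaces. -/

namespace Pool.Agent.X194.RT

open Topology Filter Set

/-- coordinates -/
def toP : G ≃ ℤ × T × T where
  toFun g := (g.n, g.s, g.t)
  invFun p := ⟨p.1, p.2.1, p.2.2⟩
  left_inv _ := rfl
  right_inv _ := rfl

instance : TopologicalSpace G := TopologicalSpace.induced toP inferInstance

/-- the coordinates as a homeomorphism -/
def toH : G ≃ₜ ℤ × T × T := toP.toHomeomorphOfIsInducing ⟨rfl⟩

theorem n_cont : Continuous (fun g : G => g.n) := continuous_fst.comp toH.continuous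
theorem s_cont : Continuous (fun g : G => g.s) :=
  continuous_fst.comp (continuous_snd.comp toH.continuous)
theorem t_cont : Continuous (fun g : G => g.t) :=
  continuous_snd.comp (continuous_snd.comp toH.continuous)

theorem smul_cont : Continuous (fun p : ℤ × T => p.1 • p.2) := by
  rw [continuous_prod_of_discrete_left]
  intro n
  exact continuous_id.zsmul n

instance : IsTopologicalGroup G where
  continuous_mul := by
    have hn1 : Continuous (fun p : G × G => p.1.n) := n_cont.comp continuous_fst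
    have hn2 : Continuous (fun p : G × G => p.2.n) := n_cont.comp continuous_snd
    have hs1 : Continuous (fun p : G × G => p.1.s) := s_cont.comp continuous_fst
    have hs2 : Continuous (fun p : G × G => p.2.s) := s_cont.comp continuous_snd
    have ht1 : Continuous (fun p : G × G => p.1.t) := t_cont.comp continuous_fst
    have ht2 : Continuous (fun p : G × G => p.2.t) := t_cont.comp continuous_snd
    rw [continuous_induced_rng]
    exact (hn1.add hn2).prodMk ((hs1.add hs2).prodMk
      ((ht1.add ht2).add (smul_cont.comp (hn1.prodMk hs2))))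
  continuous_inv := by
    rw [continuous_induced_rng]
    exact n_cont.neg.prodMk (s_cont.neg.prodMk (t_cont.neg.add (smul_cont.comp (n_cont.prodMk s_cont))))

instance : PolishSpace G := toH.symm.isClosedEmbedding.isEmbedding.isInducing |> fun _ =>
  toH.isClosedEmbedding.polishSpace

/-- the projection to the first two coordinates -/
def q : G →* Multiplicative (ℤ × T) where
  toFun g := Multiplicative.ofAdd (g.n, g.s)
  map_one' := rfl
  map_mul' _ _ := rfl

instance nilp : Group.IsNilpotent G := by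
  refine Subgroup.isNilpotent_of_ker_le_center q ?_
  intro g hg
  rw [MonoidHom.mem_ker] at hg
  have h1 : g.n = 0 := congrArg (fun x : Multiplicative (ℤ × T) => (Multiplicative.toAdd x).1) hg
  have h2 : g.s = 0 := congrArg (fun x : Multiplicative (ℤ × T) => (Multiplicative.toAdd x).2) hg
  rw [Subgroup.mem_center_iff]
  intro h
  refine G.ext ?_ ?_ ?_
  · rw [mul_n, mul_n, h1]; ring
  · rw [mul_s, mul_s, h2]; abel
  · rw [mul_t, mul_t, h1, h2, smul_zero, zero_smul]; abel

/-- the identity component, a two-torus -/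
def O : Subgroup G where
  carrier := {g | g.n = 0}
  one_mem' := rfl
  mul_mem' := by
    intro a b ha hb
    show a.n + b.n = 0
    rw [show a.n = 0 from ha, show b.n = 0 from hb]; rfl
  inv_mem' := by
    intro a ha
    show -a.n = 0
    rw [show a.n = 0 from ha]; rfl

theorem O_open : IsOpen (O : Set G) := (isOpen_discrete ({0} : Set ℤ)).preimage n_cont

instance O_normal : O.Normal := ⟨by
  intro g hg h
  show h.n + g.n + -h.n = 0
  rw [show g.n = 0 from hg]; ring⟩

/-- the identity component is a torus -/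
def O_iso : Multiplicative (T × T) ≃ₜ* O where
  toFun x := ⟨⟨0, (Multiplicative.toAdd x).1, (Multiplicative.toAdd x).2⟩, rfl⟩
  invFun g := Multiplicative.ofAdd (g.1.s, g.1.t)
  left_inv _ := rfl
  right_inv g := by
    apply Subtype.ext
    exact G.ext (show (0 : ℤ) = g.1.n from (show g.1.n = 0 from g.2).symm) rfl rfl
  map_mul' x y := by
    apply Subtype.ext
    refine G.ext rfl rfl ?_
    show _ = _ + _ + (0 : ℤ) • _
    rw [zero_smul, add_zero]
    rfl
  continuous_toFun := by
    refine Continuous.subtype_mk ?_ _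
    rw [continuous_induced_rng]
    have : Continuous (fun x : Multiplicative (T × T) => Multiplicative.toAdd x) := continuous_toAdd
    exact continuous_const.prodMk (this.fst.prodMk this.snd)
  continuous_invFun := by
    have h1 : Continuous (fun g : O => (g.1.s, g.1.t)) :=
      (s_cont.comp continuous_subtype_val).prodMk (t_cont.comp continuous_subtype_val)
    exact continuous_ofAdd.comp h1

/-- the subgroup `kℤ` -/
def Gam (k : ℕ) : Subgroup G where
  carrier := {g | (k : ℤ) ∣ g.n ∧ g.s = 0 ∧ g.t = 0}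
  one_mem' := ⟨dvd_zero _, rfl, rfl⟩
  mul_mem' := by
    rintro a b ⟨h1, h2, h3⟩ ⟨h4, h5, h6⟩
    refine ⟨dvd_add h1 h4, ?_, ?_⟩
    · rw [mul_s, h2, h5, add_zero]
    · rw [mul_t, h3, h6, h5, smul_zero, add_zero, add_zero]
  inv_mem' := by
    rintro a ⟨h1, h2, h3⟩
    refine ⟨(dvd_neg).2 h1, ?_, ?_⟩
    · rw [inv_s, h2, neg_zero]
    · rw [inv_t, h2, h3, smul_zero, neg_zero, add_zero]

theorem Gam_disc (k : ℕ) : DiscreteTopology (Gam k) := by
  have hc : Continuous (fun g : Gam k => g.1.n) := n_cont.comp continuous_subtype_val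
  refine DiscreteTopology.of_continuous_injective hc ?_
  intro a b h
  apply Subtype.ext
  obtain ⟨-, h1, h2⟩ := a.2
  obtain ⟨-, h3, h4⟩ := b.2
  exact G.ext h (h1.trans h3.symm) (h2.trans h4.symm)

/-- the map to the two-torus -/
def c (k : ℕ) : G ⧸ Gam k → T × T := fun x => Quotient.liftOn' x (fun g => (g.s, g.t)) (by
  intro a b h
  rw [QuotientGroup.leftRel_apply] at h
  obtain ⟨-, h1, h2⟩ := h
  have hb : b = a * (a⁻¹ * b) := by group
  have e1 : b.s = a.s := by rw [hb, mul_s, h1, add_zero]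
  have e2 : b.t = a.t := by rw [hb, mul_t, h1, h2, smul_zero, add_zero, add_zero]
  show (a.s, a.t) = (b.s, b.t)
  rw [e1, e2])

theorem c_mk (k : ℕ) (g : G) : c k (QuotientGroup.mk g) = (g.s, g.t) := rfl

theorem c_cont (k : ℕ) : Continuous (c k) := by
  rw [(QuotientGroup.isQuotientMap_mk _).continuous_iff]
  exact s_cont.prodMk t_cont

theorem c_open (k : ℕ) : IsOpenMap (c k) := by
  intro U hU
  have h1 : c k '' U = (fun g : G => (g.s, g.t)) '' ((QuotientGroup.mk : G → G ⧸ Gam k) ⁻¹' U) := by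
    ext p
    constructor
    · rintro ⟨x, hx, rfl⟩
      obtain ⟨g, rfl⟩ := QuotientGroup.mk_surjective x
      exact ⟨g, hx, rfl⟩
    · rintro ⟨g, hg, rfl⟩
      exact ⟨QuotientGroup.mk g, hg, rfl⟩
  rw [h1]
  have h2 : IsOpenMap (fun g : G => (g.s, g.t)) := isOpenMap_snd.comp toH.isOpenMap
  exact h2 _ (hU.preimage QuotientGroup.continuous_mk)

theorem c_smul (k : ℕ) (g : G) (x : G ⧸ Gam k) : c k (g • x) = act g (c k x) := by
  obtain ⟨h, rfl⟩ := QuotientGroup.mk_surjective x
  show ((g * h).s, (g * h).t) = act g (h.s, h.t)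
  rw [mul_s, mul_t]
  refine Prod.ext ?_ ?_
  · show g.s + h.s = h.s + g.s
    abel
  · show g.t + h.t + g.n • h.s = h.t + g.n • h.s + g.t
    abel

theorem compact_quot (k : ℕ) (hk : 0 < k) : CompactSpace (G ⧸ Gam k) := by
  have hcont : Continuous (fun p : ℤ × T × T => (QuotientGroup.mk (⟨p.1, p.2.1, p.2.2⟩ : G) : G ⧸ Gam k)) :=
    QuotientGroup.continuous_mk.comp toH.symm.continuous
  have hcomp : IsCompact ((Icc (0 : ℤ) k) ×ˢ (univ : Set (T × T))) :=
    (isCompact_Icc).prod isCompact_univ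
  have := hcomp.image hcont
  constructor
  convert this using 1
  symm
  apply eq_univ_of_forall
  intro x
  obtain ⟨g, rfl⟩ := QuotientGroup.mk_surjective x
  have hk' : (0 : ℤ) < k := by exact_mod_cast hk
  refine ⟨(g.n % k, g.s, g.t), ⟨⟨Int.emod_nonneg _ hk'.ne', (Int.emod_lt_of_pos _ hk').le⟩, trivial⟩, ?_⟩
  show (QuotientGroup.mk (⟨g.n % k, g.s, g.t⟩ : G) : G ⧸ Gam k) = QuotientGroup.mk g
  rw [QuotientGroup.eq]
  refine ⟨?_, ?_, ?_⟩
  · show (k : ℤ) ∣ -(g.n % k) + g.n
    have := Int.emod_add_mul_ediv g.n k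
    exact ⟨g.n / k, by linarith⟩
  · show -g.s + g.s = 0
    abel
  · show (-g.t + (g.n % k) • g.s) + g.t + (-(g.n % k)) • g.s = 0
    rw [neg_smul]; abel

/-- minimality for the translations of `G ⧸ Gam 2` -/
theorem minimal_two (x : G ⧸ Gam 2) : Dense (range fun m : ℤ => tau ^ m • x) := by
  obtain ⟨g, rfl⟩ := QuotientGroup.mk_surjective x
  rw [dense_iff_inter_open]
  intro U hU hUne
  obtain ⟨y, hy⟩ := hUne
  obtain ⟨h, rfl⟩ := QuotientGroup.mk_surjective y
  have hU' : IsOpen ((QuotientGroup.mk : G → G ⧸ Gam 2) ⁻¹' U) := hU.preimage QuotientGroup.continuous_mk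
  -- a slice
  set V : Set (T × T) := {p | (⟨h.n, p.1, p.2⟩ : G) ∈ (QuotientGroup.mk : G → G ⧸ Gam 2) ⁻¹' U} with hV
  have hVo : IsOpen V := by
    have hc : Continuous (fun p : T × T => (⟨h.n, p.1, p.2⟩ : G)) :=
      toH.symm.continuous.comp (continuous_const.prodMk continuous_id)
    exact hU'.preimage hc
  have hVne : (h.s, h.t) ∈ V := hy
  -- the parity
  have key : ∀ p : T × T, ∃ k : ℤ, act (tau ^ (2 * k)) p ∈ V := by
    intro p
    by_contra hcon
    push Not at hcon
    have hall := dense_orbit {z | ∀ k : ℤ, act (tau ^ (2 * k)) z ∉ V} ?_ ⟨p, hcon⟩ ?_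
    · have h1 : (h.s, h.t) ∈ {z | ∀ k : ℤ, act (tau ^ (2 * k)) z ∉ V} := by rw [hall]; trivial
      have h2 := h1 0
      rw [mul_zero, zpow_zero, act_one] at h2
      exact h2 hVne
    · have : {z | ∀ k : ℤ, act (tau ^ (2 * k)) z ∉ V} = ⋂ k : ℤ, (act (tau ^ (2 * k))) ⁻¹' Vᶜ := by
        ext z; simp
      rw [this]
      exact isClosed_iInter fun k => hVo.isClosed_compl.preimage (act_cont _)
    · intro z hz k
      have h1 := hz (k + 1)
      rw [S, ← act_mul, ← zpow_add]
      rw [show 2 * k + 2 = 2 * (k + 1) by ring]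
      exact h1
  have hfin : ∀ m : ℤ, (2 : ℤ) ∣ m + g.n - h.n → act (tau ^ m) (g.s, g.t) ∈ V →
      (U ∩ range fun m : ℤ => tau ^ m • (QuotientGroup.mk g : G ⧸ Gam 2)).Nonempty := by
    intro m hm hmV
    refine ⟨tau ^ m • (QuotientGroup.mk g : G ⧸ Gam 2), ?_, ⟨m, rfl⟩⟩
    have h1 : (QuotientGroup.mk (⟨h.n, (act (tau ^ m) (g.s, g.t)).1, (act (tau ^ m) (g.s, g.t)).2⟩ : G)
        : G ⧸ Gam 2) ∈ U := hmV
    have h2 : (tau ^ m • (QuotientGroup.mk g : G ⧸ Gam 2)) =
        (QuotientGroup.mk (⟨h.n, (act (tau ^ m) (g.s, g.t)).1, (act (tau ^ m) (g.s, g.t)).2⟩ : G)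
        : G ⧸ Gam 2) := by
      show (QuotientGroup.mk (tau ^ m * g) : G ⧸ Gam 2) = _
      rw [QuotientGroup.eq]
      have e1 : (tau ^ m * g).s = (act (tau ^ m) (g.s, g.t)).1 := by
        show (tau ^ m).s + g.s = g.s + (tau ^ m).s
        exact add_comm _ _
      have e2 : (tau ^ m * g).t = (act (tau ^ m) (g.s, g.t)).2 := by
        show (tau ^ m).t + g.t + (tau ^ m).n • g.s = g.t + (tau ^ m).n • g.s + (tau ^ m).t
        generalize (tau ^ m).n • g.s = z
        abel
      have e3 : (tau ^ m * g).n = m + g.n := by rw [mul_n, (tau_pow m).1]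
      generalize tau ^ m * g = w at e1 e2 e3
      rw [← e1, ← e2]
      refine ⟨?_, ?_, ?_⟩
      · show ((2 : ℕ) : ℤ) ∣ -w.n + h.n
        rw [e3]
        have : -(m + g.n) + h.n = -(m + g.n - h.n) := by ring
        rw [this]
        exact (dvd_neg).2 (by exact_mod_cast hm)
      · show -w.s + w.s = 0
        abel
      · show (-w.t + w.n • w.s) + w.t + (-w.n) • w.s = 0
        rw [neg_smul]; abel
    rw [h2]; exact h1
  rcases Int.even_or_odd (g.n - h.n) with he | ho
  · obtain ⟨k, hk⟩ := key (g.s, g.t)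
    refine hfin (2 * k) ?_ hk
    obtain ⟨r, hr⟩ := he
    exact ⟨k + r, by linarith⟩
  · obtain ⟨k, hk⟩ := key (act tau (g.s, g.t))
    rw [← act_mul] at hk
    have : tau ^ (2 * k) * tau = tau ^ (2 * k + 1) := by rw [zpow_add_one]
    rw [this] at hk
    refine hfin (2 * k + 1) ?_ hk
    obtain ⟨r, hr⟩ := ho
    exact ⟨k + r + 1, by linarith⟩

/-- the projection between the homogeneous spaces -/
def pr : G ⧸ Gam 2 → G ⧸ Gam 1 := fun x => Quotient.liftOn' x (fun g => (QuotientGroup.mk g : G ⧸ Gam 1)) (by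
  intro a b h
  rw [QuotientGroup.leftRel_apply] at h
  rw [QuotientGroup.eq]
  exact ⟨by simp, h.2.1, h.2.2⟩)

theorem pr_cont : Continuous pr := by
  rw [(QuotientGroup.isQuotientMap_mk _).continuous_iff]
  exact QuotientGroup.continuous_mk

theorem minimal_one (x : G ⧸ Gam 1) : Dense (range fun m : ℤ => tau ^ m • x) := by
  obtain ⟨g, rfl⟩ := QuotientGroup.mk_surjective x
  have h1 := minimal_two (QuotientGroup.mk g)
  have hsurj : Function.Surjective pr := by
    intro y
    obtain ⟨h, rfl⟩ := QuotientGroup.mk_surjective y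
    exact ⟨QuotientGroup.mk h, rfl⟩
  have h2 := hsurj.denseRange.dense_image pr_cont h1
  refine h2.mono ?_
  rintro _ ⟨_, ⟨m, rfl⟩, rfl⟩
  exact ⟨m, rfl⟩

/-! ### the open sets -/

/-- an open arc -/
def V0 : Set T := (fun x : ℝ => (x : T)) '' Ioo 0 (1 / 3)

/-- its closure -/
def A0 : Set T := (fun x : ℝ => (x : T)) '' Icc 0 (1 / 3)

theorem V0_open : IsOpen V0 := QuotientAddGroup.isOpenMap_coe _ isOpen_Ioo

theorem V0_closure : closure V0 = A0 := by
  have hc : Continuous (fun x : ℝ => (x : T)) := AddCircle.continuous_mk' 1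
  apply Subset.antisymm
  · apply closure_minimal
    · exact image_mono Ioo_subset_Icc_self
    · exact (isCompact_Icc.image hc).isClosed
  · have h1 : closure (Ioo (0 : ℝ) (1 / 3)) = Icc 0 (1 / 3) := closure_Ioo (by norm_num)
    unfold A0 V0
    rw [← h1]
    exact image_closure_subset_closure_image hc

theorem zero_A0 : (0 : T) ∈ A0 := ⟨0, ⟨le_rfl, by norm_num⟩, rfl⟩

theorem A0_neg (x : T) (h1 : x ∈ A0) (h2 : -x ∈ A0) : x = 0 := by
  obtain ⟨a, ha, rfl⟩ := h1
  obtain ⟨b, hb, hab⟩ := h2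
  have h3 : ((a + b : ℝ) : T) = 0 := by
    rw [AddCircle.coe_add]
    have : (b : T) = -(a : T) := hab
    rw [this]; abel
  rw [AddCircle.coe_eq_zero_iff] at h3
  obtain ⟨n, hn⟩ := h3
  rw [zsmul_eq_mul, mul_one] at hn
  have h4 : (-1 : ℝ) < n := by rw [hn]; linarith [ha.1, hb.1]
  have h5 : (n : ℝ) < 1 := by rw [hn]; linarith [ha.2, hb.2]
  have h6 : n = 0 := by
    have h4' : (-1 : ℤ) < n := by exact_mod_cast h4
    have h5' : n < (1 : ℤ) := by exact_mod_cast h5
    omega
  rw [h6] at hn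
  have h7 : a = 0 := by
    have := ha.1
    have := hb.1
    push_cast at hn
    linarith
  rw [h7]; rfl

/-- the open set -/
def U (k : ℕ) : Set (G ⧸ Gam k) := c k ⁻¹' (V0 ×ˢ V0)

theorem U_open (k : ℕ) : IsOpen (U k) := (V0_open.prod V0_open).preimage (c_cont k)

theorem U_closure (k : ℕ) : closure (U k) = c k ⁻¹' (A0 ×ˢ A0) := by
  unfold U
  rw [← (c_open k).preimage_closure_eq_closure_preimage (c_cont k), closure_prod_eq, V0_closure]

open Pointwise in
theorem asym (k : ℕ) (g : G) (hg : g • closure (U k) = closure (U k)) : g = 1 := by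
  have hmem : ∀ x : G ⧸ Gam k, x ∈ closure (U k) → g • x ∈ closure (U k) := by
    intro x hx
    rw [← hg]
    exact smul_mem_smul_set hx
  have hmem' : ∀ x : G ⧸ Gam k, x ∈ closure (U k) → g⁻¹ • x ∈ closure (U k) := by
    intro x hx
    rw [← hg] at hx
    exact mem_smul_set_iff_inv_smul_mem.1 hx
  have hlift : ∀ p : T × T, ∃ x : G ⧸ Gam k, c k x = p := fun p => ⟨QuotientGroup.mk ⟨0, p.1, p.2⟩, rfl⟩
  have hA : ∀ p ∈ A0 ×ˢ A0, act g p ∈ A0 ×ˢ A0 := by
    intro p hp
    obtain ⟨x, rfl⟩ := hlift p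
    rw [← c_smul]
    have h1 : x ∈ closure (U k) := by rw [U_closure]; exact hp
    have h2 := hmem x h1
    rw [U_closure] at h2
    exact h2
  have hA' : ∀ p ∈ A0 ×ˢ A0, act g⁻¹ p ∈ A0 ×ˢ A0 := by
    intro p hp
    obtain ⟨x, rfl⟩ := hlift p
    rw [← c_smul]
    have h1 : x ∈ closure (U k) := by rw [U_closure]; exact hp
    have h2 := hmem' x h1
    rw [U_closure] at h2
    exact h2
  have h0 := hA (0, 0) ⟨zero_A0, zero_A0⟩
  have h0' := hA' (0, 0) ⟨zero_A0, zero_A0⟩
  have hs : g.s = 0 := by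
    apply A0_neg
    · have : 0 + g.s ∈ A0 := h0.1
      rwa [zero_add] at this
    · have : 0 + -g.s ∈ A0 := h0'.1
      rwa [zero_add] at this
  have ht : g.t = 0 := by
    apply A0_neg
    · have : 0 + g.n • (0 : T) + g.t ∈ A0 := h0.2
      rwa [smul_zero, zero_add, zero_add] at this
    · have : 0 + (-g.n) • (0 : T) + (-g.t + g.n • g.s) ∈ A0 := h0'.2
      rwa [smul_zero, zero_add, zero_add, hs, smul_zero, add_zero] at this
  have hn : g.n = 0 := by
    set y : ℝ := 1 / (4 * (|g.n| + 1)) with hy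
    have hpos : (0 : ℝ) < 4 * (|(g.n : ℝ)| + 1) := by positivity
    have hyeq : y = 1 / (4 * (|(g.n : ℝ)| + 1)) := by rw [hy]; push_cast; rfl
    have hyA : (y : T) ∈ A0 := by
      refine ⟨y, ⟨?_, ?_⟩, rfl⟩
      · rw [hyeq]; positivity
      · rw [hyeq, div_le_div_iff₀ hpos (by norm_num)]
        have := abs_nonneg (g.n : ℝ)
        linarith
    have h1 := (hA ((y : T), 0) ⟨hyA, zero_A0⟩).2
    have h2 := (hA' ((y : T), 0) ⟨hyA, zero_A0⟩).2
    have h3 : g.n • (y : T) = 0 := by
      apply A0_neg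
      · have : 0 + g.n • (y : T) + g.t ∈ A0 := h1
        rwa [ht, add_zero, zero_add] at this
      · have : 0 + (-g.n) • (y : T) + (-g.t + g.n • g.s) ∈ A0 := h2
        rwa [ht, hs, smul_zero, neg_zero, add_zero, add_zero, zero_add, neg_smul] at this
    rw [← AddCircle.coe_zsmul, AddCircle.coe_eq_zero_iff] at h3
    obtain ⟨m, hm⟩ := h3
    rw [zsmul_eq_mul, mul_one, zsmul_eq_mul, hyeq] at hm
    have h4 : |(m : ℝ)| < 1 := by
      rw [hm, mul_one_div, abs_div, abs_of_pos hpos, div_lt_one hpos]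
      have := abs_nonneg (g.n : ℝ)
      linarith
    have h5 : m = 0 := by
      have : |m| < 1 := by exact_mod_cast h4
      rwa [Int.abs_lt_one_iff] at this
    rw [h5] at hm
    push_cast at hm
    have h6 : (g.n : ℝ) = 0 := by
      have h7 : (1 : ℝ) / (4 * (|(g.n : ℝ)| + 1)) ≠ 0 := by positivity
      rcases mul_eq_zero.1 hm.symm with h | h
      · exact h
      · exact absurd h h7
    exact_mod_cast h6
  exact G.ext hn hs ht

/-! ### the two spaces are not homeomorphic -/

theorem connected_one : ConnectedSpace (G ⧸ Gam 1) := by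
  have hc : Continuous (fun p : T × T => (QuotientGroup.mk (⟨0, p.1, p.2⟩ : G) : G ⧸ Gam 1)) :=
    QuotientGroup.continuous_mk.comp (toH.symm.continuous.comp (continuous_const.prodMk continuous_id))
  have hs : Function.Surjective (fun p : T × T => (QuotientGroup.mk (⟨0, p.1, p.2⟩ : G) : G ⧸ Gam 1)) := by
    intro x
    obtain ⟨g, rfl⟩ := QuotientGroup.mk_surjective x
    refine ⟨(g.s, g.t), ?_⟩
    show (QuotientGroup.mk (⟨0, g.s, g.t⟩ : G) : G ⧸ Gam 1) = QuotientGroup.mk g
    rw [QuotientGroup.eq]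
    refine ⟨by simp, ?_, ?_⟩
    · show -g.s + g.s = 0
      abel
    · show (-g.t + (0 : ℤ) • g.s) + g.t + (-(0 : ℤ)) • g.s = 0
      simp
  have : ConnectedSpace T := inferInstance
  exact hs.connectedSpace hc

/-- parity -/
def par : G ⧸ Gam 2 → Bool := fun x => Quotient.liftOn' x (fun g => decide (g.n % 2 = 0)) (by
  intro a b h
  rw [QuotientGroup.leftRel_apply] at h
  obtain ⟨h1, -, -⟩ := h
  have h2 : ((2 : ℕ) : ℤ) ∣ -a.n + b.n := h1
  have h3 : (a.n % 2 = 0) ↔ (b.n % 2 = 0) := by push_cast at h2; omega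
  simp only [h3])

theorem par_cont : Continuous par := by
  rw [(QuotientGroup.isQuotientMap_mk _).continuous_iff]
  exact (continuous_of_discreteTopology (f := fun n : ℤ => decide (n % 2 = 0))).comp n_cont

theorem not_homeo : IsEmpty ((G ⧸ Gam 1) ≃ₜ (G ⧸ Gam 2)) := by
  constructor
  intro φ
  have := connected_one
  have h1 : Continuous (par ∘ φ) := par_cont.comp φ.continuous
  have h2 := PreconnectedSpace.constant inferInstance h1
    (x := φ.symm (QuotientGroup.mk (⟨0, 0, 0⟩ : G))) (y := φ.symm (QuotientGroup.mk (⟨1, 0, 0⟩ : G)))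
  simp only [Function.comp_apply, Homeomorph.apply_symm_apply] at h2
  have h3 : (true : Bool) = false := h2
  exact absurd h3 (by decide)

end Pool.Agent.X194.RT
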